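import Pool.Agent.Q152.QT.StmW
import Pool.Agent.Q163.GC.Mom

set_option autoImplicit false

/-!
# Project QT part 4 (helper152), job QW1: second moment of the off-diagonal part over the odd moduli

Local version of `mom` and `sec` of `Pool/Agent/Q163/GC/Mom.lean` (helper163).
-/

namespace Pool.Agent.Q68.QT

open Finset
open Pool.Agent.Q152.QT (fm S_Char S_MeanQ)
open Pool.Agent.Q163.GC

/-- the Jacobi symbol as a real number -/
noncomputable def js (m n : ℕ) : ℝ := ((jacobiSym (n : ℤ) m : ℤ) : ℝ)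

lemma js_mul (m a b : ℕ) : js m (a * b) = js m a * js m b := by
  unfold js
  rw [Nat.cast_mul, jacobiSym.mul_left, Int.cast_mul]

lemma abs_js (m n : ℕ) : |js m n| ≤ 1 := by
  unfold js
  rcases jacobiSym.trichotomy (n : ℤ) m with h | h | h <;> rw [h] <;> simp

lemma card_odd (P : ℕ) : ((range (P + 1)).filter fun m => Odd m).card ≤ P := by
  have h1 : ((range (P + 1)).filter fun m => Odd m) ⊆ (Icc 1 P) := by
    intro m hm
    rw [mem_filter, mem_range] at hm
    rw [mem_Icc]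
    exact ⟨hm.2.pos, by omega⟩
  exact (card_le_card h1).trans (le_of_eq (by simp))

/-- the mean square over the odd moduli is bounded by the number of the square products -/
theorem secQ (h5 : S_Char) {ι : Type*} [DecidableEq ι] (S : Finset ι) (w : ι → ℝ)
    (hw : ∀ i, |w i| ≤ 1) (M : ι → ℕ) (B : ℝ) (hM : ∀ i ∈ S, M i ≠ 0) (hB : ∀ i ∈ S, (M i : ℝ) ≤ B)
    (T : Finset (ι × ι))
    (hT : ∀ i ∈ S, ∀ j ∈ S, w i ≠ 0 → w j ≠ 0 → IsSquare (M i * M j) → (i, j) ∈ T) (P : ℕ) :
    ∑ m ∈ (range (P + 1)).filter (fun m => Odd m), (∑ i ∈ S, w i * js m (M i)) ^ 2 ≤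
      P * T.card + 4 * (S.card : ℝ) ^ 2 * B ^ 2 := by
  classical
  have e1 : ∀ m, (∑ i ∈ S, w i * js m (M i)) ^ 2 =
      ∑ x ∈ S ×ˢ S, w x.1 * w x.2 * js m (M x.1 * M x.2) := by
    intro m
    rw [sq, Finset.sum_mul_sum, ← Finset.sum_product']
    refine Finset.sum_congr rfl fun x _ => ?_
    rw [js_mul]
    ring
  simp_rw [e1]
  rw [Finset.sum_comm]
  have hww : ∀ x : ι × ι, |w x.1 * w x.2| ≤ 1 := by
    intro x
    rw [abs_mul]
    have := mul_le_mul (hw x.1) (hw x.2) (abs_nonneg _) zero_le_one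
    linarith
  have h1 : ∀ x ∈ S ×ˢ S, ∑ m ∈ (range (P + 1)).filter (fun m => Odd m),
      w x.1 * w x.2 * js m (M x.1 * M x.2) ≤ (if x ∈ T then (P : ℝ) else 0) + 4 * B ^ 2 := by
    intro x hx
    rw [Finset.mem_product] at hx
    rw [← mul_sum]
    have hB0 : 0 ≤ 4 * B ^ 2 := by positivity
    split_ifs with h
    · have h2 : |∑ m ∈ (range (P + 1)).filter (fun m => Odd m), js m (M x.1 * M x.2)| ≤ P := by
        refine (abs_sum_le_sum_abs _ _).trans ((sum_le_sum fun m _ => abs_js m _).trans ?_)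
        rw [sum_const, nsmul_eq_mul, mul_one]
        exact_mod_cast card_odd P
      refine (le_abs_self _).trans ?_
      rw [abs_mul]
      have := mul_le_mul (hww x) h2 (abs_nonneg _) zero_le_one
      linarith
    · rw [zero_add]
      by_cases h1 : w x.1 = 0
      · rw [h1, zero_mul, zero_mul]
        exact hB0
      by_cases h2 : w x.2 = 0
      · rw [h2, mul_zero, zero_mul]
        exact hB0
      have h3 : ¬ IsSquare (M x.1 * M x.2) := fun h3 => h (hT x.1 hx.1 x.2 hx.2 h1 h2 h3)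
      have h4 := h5 (M x.1 * M x.2) (Nat.pos_of_ne_zero (mul_ne_zero (hM _ hx.1) (hM _ hx.2))) h3 P
      have h6 : |∑ m ∈ (range (P + 1)).filter (fun m => Odd m), js m (M x.1 * M x.2)| ≤
          4 * ((M x.1 : ℝ) * M x.2) := by
        unfold js
        have h7 : ((|∑ m ∈ (range (P + 1)).filter (fun m => Odd m),
            jacobiSym ((M x.1 * M x.2 : ℕ) : ℤ) m| : ℤ) : ℝ) ≤
            ((4 * ((M x.1 * M x.2 : ℕ) : ℤ) : ℤ) : ℝ) := by exact_mod_cast h4
        push_cast at h7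
        push_cast
        exact h7
      refine (le_abs_self _).trans ?_
      rw [abs_mul]
      have h8 := mul_le_mul (hww x) h6 (abs_nonneg _) zero_le_one
      have h9 : (M x.1 : ℝ) * M x.2 ≤ B * B :=
        mul_le_mul (hB _ hx.1) (hB _ hx.2) (Nat.cast_nonneg _) ((Nat.cast_nonneg _).trans (hB _ hx.1))
      nlinarith [h8, h9]
  refine (Finset.sum_le_sum h1).trans ?_
  rw [sum_add_distrib, Finset.sum_ite_mem, Finset.sum_const, sum_const, nsmul_eq_mul, nsmul_eq_mul,
    card_product]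
  have h2 : (((S ×ˢ S ∩ T).card : ℕ) : ℝ) ≤ T.card := by
    exact_mod_cast Finset.card_le_card Finset.inter_subset_right
  have h3 := mul_le_mul_of_nonneg_left h2 (Nat.cast_nonneg (α := ℝ) P)
  push_cast
  nlinarith [h3]

/-- **Job QW1.** -/
theorem t_MeanQ (h5 : S_Char) : S_MeanQ := by
  classical
  intro g N h P hg
  simp_rw [BB_sub]
  set a : ℕ → ℝ := fun n => g n * Pool.Agent.Y293.SF.mu n with ha_def
  have ha : ∀ n, |a n| ≤ 1 := by
    intro n
    rw [ha_def]
    dsimp only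
    rw [abs_mul]
    have h1 : |g n| = 1 := by rcases hg n with h | h <;> rw [h] <;> simp
    rw [h1, one_mul]
    exact Pool.Agent.Q152.QT.mu_abs n
  have ha0 : ∀ n, a n ≠ 0 → Squarefree n := by
    intro n hn
    by_contra h
    exact hn (by rw [ha_def]; dsimp only; rw [Pool.Agent.Q152.QT.mu_nsqf h, mul_zero])
  set w : ℕ × ℕ × ℕ → ℝ := fun t => a (t.1 + t.2.1 + 1) * a (t.1 + t.2.2 + 1) with hw
  set M : ℕ × ℕ × ℕ → ℕ := fun t => (t.1 + t.2.1 + 1) * (t.1 + t.2.2 + 1) with hM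
  have e1 : ∀ m, ∑ t ∈ JJ N h, fm g m (t.1 + t.2.1 + 1) * fm g m (t.1 + t.2.2 + 1) =
      ∑ t ∈ JJ N h, w t * js m (M t) := by
    intro m
    refine sum_congr rfl fun t _ => ?_
    rw [hM, js_mul, hw]
    unfold fm js
    rw [ha_def]
    ring
  simp_rw [e1]
  set E := (prs (N + h) h ×ˢ prs (N + h) h).filter fun t => cr (red t.1) = cr (red t.2) with hE
  set T := ((JJ N h) ×ˢ (JJ N h)).filter fun s => (ph s.1, ph s.2) ∈ E with hT
  have hfac : ∀ t ∈ JJ N h, w t ≠ 0 → ph t ∈ prs (N + h) h ∧ (ph t).1 * (ph t).2 = M t := by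
    intro t ht hwt
    have h1 := mem_JJ.1 ht
    have h2 : Squarefree (t.1 + t.2.1 + 1) := ha0 _ fun h => hwt (by rw [hw]; simp [h])
    have h3 : Squarefree (t.1 + t.2.2 + 1) := ha0 _ fun h => hwt (by rw [hw]; simp [h])
    rw [mem_prs]
    unfold ph
    dsimp only
    rcases lt_or_gt_of_ne h1.2.2.2 with h4 | h4
    · rw [min_eq_left h4.le, max_eq_right h4.le]
      exact ⟨⟨⟨by omega, by omega⟩, ⟨by omega, by omega⟩, by omega, by omega, h2, h3⟩, rfl⟩
    · rw [min_eq_right h4.le, max_eq_left h4.le]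
      exact ⟨⟨⟨by omega, by omega⟩, ⟨by omega, by omega⟩, by omega, by omega, h3, h2⟩,
        by rw [hM]; ring⟩
  have hwb : ∀ t, |w t| ≤ 1 := by
    intro t
    rw [hw, abs_mul]
    have := mul_le_mul (ha (t.1 + t.2.1 + 1)) (ha (t.1 + t.2.2 + 1)) (abs_nonneg _) zero_le_one
    linarith
  have hMB : ∀ t ∈ JJ N h, (M t : ℝ) ≤ ((N : ℝ) + h) ^ 2 := by
    intro t ht
    have h1 := mem_JJ.1 ht
    have h2 : M t ≤ (N + h) * (N + h) := by
      rw [hM]
      exact Nat.mul_le_mul (by omega) (by omega)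
    have h3 : (M t : ℝ) ≤ (((N + h) * (N + h) : ℕ) : ℝ) := by exact_mod_cast h2
    push_cast at h3
    linarith
  have h1 := secQ h5 (JJ N h) w hwb M (((N : ℝ) + h) ^ 2)
    (fun t _ => mul_ne_zero (Nat.succ_ne_zero _) (Nat.succ_ne_zero _)) hMB
    T (fun i hi j hj hwi hwj hsq => by
      obtain ⟨a1, a2⟩ := hfac i hi hwi
      obtain ⟨b1, b2⟩ := hfac j hj hwj
      rw [hT, mem_filter, mem_product, hE, mem_filter, mem_product]
      refine ⟨⟨hi, hj⟩, ⟨a1, b1⟩, ?_⟩
      have c1 := mem_prs.1 a1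
      have c2 := mem_prs.1 b1
      exact core_eq c1.2.2.2.2.1 c1.2.2.2.2.2 c2.2.2.2.2.1 c2.2.2.2.2.2 (by rw [a2, b2]; exact hsq)) P
  refine h1.trans ?_
  have h2 : T.card ≤ (2 * h) * (2 * h) * E.card := by
    refine card_le_mul_card_image_of_maps_to (f := fun s => (ph s.1, ph s.2)) ?_ _ ?_
    · intro s hs
      exact (mem_filter.1 hs).2
    · intro b _
      calc (T.filter fun s => (ph s.1, ph s.2) = b).card
          ≤ (((JJ N h).filter fun t => ph t = b.1) ×ˢ ((JJ N h).filter fun t => ph t = b.2)).card := by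
            refine card_le_card fun s hs => ?_
            rw [mem_filter, hT, mem_filter, mem_product] at hs
            rw [mem_product, mem_filter, mem_filter]
            exact ⟨⟨hs.1.1.1, by rw [← hs.2]⟩, ⟨hs.1.1.2, by rw [← hs.2]⟩⟩
        _ ≤ (2 * h) * (2 * h) := by
            rw [card_product]
            exact Nat.mul_le_mul (fibre_ph N h b.1) (fibre_ph N h b.2)
  have h3 : (T.card : ℝ) ≤ 4 * (h : ℝ) ^ 2 * E.card := by
    calc (T.card : ℝ) ≤ (((2 * h) * (2 * h) * E.card : ℕ) : ℝ) := by exact_mod_cast h2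
      _ = 4 * (h : ℝ) ^ 2 * E.card := by
          push_cast
          ring
  have h4 : ((JJ N h).card : ℝ) ≤ (N : ℝ) * (h : ℝ) ^ 2 := by
    have h5 : (JJ N h).card ≤ N * (h * h) := by
      unfold JJ
      refine (card_filter_le _ _).trans ?_
      rw [card_product, card_product, card_range, card_range]
    have h6 : ((JJ N h).card : ℝ) ≤ ((N * (h * h) : ℕ) : ℝ) := by exact_mod_cast h5
    push_cast at h6
    linarith
  have h5 : ((JJ N h).card : ℝ) ^ 2 ≤ ((N : ℝ) * (h : ℝ) ^ 2) ^ 2 :=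
    pow_le_pow_left₀ (Nat.cast_nonneg _) h4 2
  refine add_le_add (mul_le_mul_of_nonneg_left h3 (Nat.cast_nonneg _)) ?_
  have h6 : (((N : ℝ) + h) ^ 2) ^ 2 = ((N : ℝ) + h) ^ 4 := by ring
  rw [h6]
  exact mul_le_mul_of_nonneg_right (mul_le_mul_of_nonneg_left h5 (by norm_num)) (by positivity)

end Pool.Agent.Q68.QT
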